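import Pool.Agent.Helper67.KPG.St2
import Pool.Agent.Helper67.KPG.St3

set_option autoImplicit false

namespace Pool.Agent.Helper69.KPG

open Pool.Agent.Helper67.NO Pool.Agent.Helper52.KP Pool.Agent.Helper67.KPG

universe u

theorem hPTX : StINV.{u} → StCON.{u} → StPHI.{u} → StPVC.{u} → StHPC.{u} → StGPF.{u} →
    StBAS.{u} → StPTX.{u} := by
  intro sINV sCON sPHI sPVC sHPC sGPF sBAS g _ _ _ e h f N pr hSl m w E hBs
  obtain ⟨k, a, t, Nu, Ny, hk, ht, hNu, hNy, hte, hA, hB⟩ := sINV g e h f N pr hSl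
  obtain ⟨kD, D0, hD0, hD0e, hCON⟩ := sCON g e h f N pr hSl
  obtain ⟨hu, hy, hPV, hphis, hscl, hφ, -⟩ := sPHI g e h f N pr hSl m w E hBs
  have PVC := sPVC g m
  have HPC := sHPC g
  have GPF := sGPF g
  have BAS := sBAS g e h f N pr hSl
  choose φ hφ using hφ
  -- the polynomial `Δ`
  obtain ⟨Δ, hΔ⟩ := PVC.mul _ _ (PVC.vcomp kD D0 (yy w E) hD0 (PVC.yy w E))
    (PVC.vcomp k t (phi w E) ht hPV)
  have hΔ' : ∀ z, ev Δ z = D0 (yy w E z) * t (phi w E z) := fun z => (hΔ z).symm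
  have hD0s : ∀ (c : ℂ) x, D0 (c • x) = c ^ kD * D0 x := HPC.hom kD D0 hD0
  have hts : ∀ (c : ℂ) x, t (c • x) = c ^ k * t x := HPC.hom k t ht
  have hDN : HP (kD * (a * k + 1)) (fun x => D0 (Ny x)) := HPC.vcomp _ _ D0 Ny hD0 hNy
  -- facts on the domain
  have key : ∀ z, ev Δ z ≠ 0 → ∃ b, GP (ge pr 0) b ∧ yy w E z = b e ∧ t (phi w E z) ≠ 0 ∧
      D0 (yy w E z) ≠ 0 ∧ Nu (phi w E z) = t (phi w E z) ^ a • uu w E z ∧
      Ny (phi w E z) = t (phi w E z) ^ a • yy w E z ∧ Orb e (phi w E z) := by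
    intro z hz
    rw [hΔ'] at hz
    have h1 : D0 (yy w E z) ≠ 0 := left_ne_zero_of_mul hz
    have h2 : t (phi w E z) ≠ 0 := right_ne_zero_of_mul hz
    obtain ⟨b, hb, hbe⟩ := hCON (yy w E z) (hy z) h1
    have h3 : phi w E z = expAd (uu w E z) (b e) := by rw [phi, hbe]
    have h4 := hB (uu w E z) (hu z) b hb (by rw [← h3]; exact h2)
    rw [← h3] at h4
    refine ⟨b, hb, hbe.symm, h2, h1, h4.1, ?_, ?_⟩
    · rw [h4.2, hbe]
    · rw [GPF.orb]
      exact ⟨expAd (uu w E z) ∘ₗ b, GP.step b _ (GPF.mono _ _ le_top _ hb) trivial, by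
        rw [LinearMap.comp_apply, ← h3]⟩
  refine ⟨Δ, k + kD * (a * k + 1), a, fun x => t x * D0 (Ny x),
    fun j x => if w j = 0 then φ j (Nu x) * D0 (Ny x) ^ a else φ j (Ny x) * D0 (Ny x) ^ a,
    by omega, HPC.mul _ _ _ _ ht hDN, ?_, ?_, ?_, ?_, ?_, ?_⟩
  · intro j
    rcases hBs.w01 j with h0 | h1
    · simp only [h0, if_true]
      have := HPC.mul _ _ _ _ (HPC.vfun (a * k) (φ j) Nu hNu) (HPC.pow _ a _ hDN)
      have e1 : a * (k + kD * (a * k + 1)) + 0 = a * k + a * (kD * (a * k + 1)) := by ring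
      rw [e1]
      exact this
    · simp only [h1, one_ne_zero, if_false]
      have := HPC.mul _ _ _ _ (HPC.vfun (a * k + 1) (φ j) Ny hNy) (HPC.pow _ a _ hDN)
      have e1 : a * (k + kD * (a * k + 1)) + 1 = a * k + 1 + a * (kD * (a * k + 1)) := by ring
      rw [e1]
      exact this
  · intro h0
    obtain ⟨z, hz1, hz2⟩ := hBs.spn 0 (Submodule.zero_mem _) e BAS.e2.1
    have h1 := hΔ' z
    have h2 : phi w E z = e := by rw [phi, ← hz1, ← hz2, GPF.zero]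
    rw [h0, h2, ← hz2] at h1
    simp only [ev, map_zero] at h1
    exact mul_ne_zero hD0e hte h1.symm
  · intro z hz
    obtain ⟨b, hb, hbe, -⟩ := key z hz
    exact ⟨b, hb, hbe⟩
  · intro c z hc hz
    rw [hΔ'] at hz ⊢
    rw [(hscl c z).2, hphis, hD0s, hts]
    exact mul_ne_zero (mul_ne_zero (pow_ne_zero _ hc) (left_ne_zero_of_mul hz))
      (mul_ne_zero (pow_ne_zero _ hc) (right_ne_zero_of_mul hz))
  · intro x hx
    obtain ⟨v, hv, hvx⟩ := (GPF.orb e x).1 hx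
    constructor
    · intro hp
      have h1 : t x ≠ 0 := left_ne_zero_of_mul hp
      have h2 : D0 (Ny x) ≠ 0 := right_ne_zero_of_mul hp
      obtain ⟨u, hu', y, hy', h3, h4, h5⟩ := hA v hv (by rw [hvx]; exact h1)
      rw [hvx] at h3 h4 h5
      obtain ⟨z, hz1, hz2⟩ := hBs.spn u hu' y hy'
      refine ⟨z, ?_, ?_⟩
      · have h6 : phi w E z = x := by rw [phi, ← hz1, ← hz2, h3]
        rw [hΔ', h6, ← hz2]
        refine mul_ne_zero ?_ h1
        rw [h5, hD0s] at h2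
        exact right_ne_zero_of_mul h2
      · rw [phi, ← hz1, ← hz2, h3]
    · rintro ⟨z, hz, rfl⟩
      obtain ⟨b, hb, hbe, h1, h2, h3, h4, -⟩ := key z hz
      refine mul_ne_zero h1 ?_
      rw [h4, hD0s]
      exact mul_ne_zero (pow_ne_zero _ (pow_ne_zero _ h1)) h2
  · intro z hz
    obtain ⟨b, hb, hbe, h1, h2, h3, h4, h5⟩ := key z hz
    refine ⟨h5, fun j => ?_⟩
    rcases hBs.w01 j with h0 | h0
    · simp only [h0, if_true]
      rw [h3, map_smul, (hφ j z).1 h0, smul_eq_mul, mul_pow]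
      ring
    · simp only [h0, one_ne_zero, if_false]
      nth_rewrite 1 [h4]
      rw [map_smul, (hφ j z).2 h0, smul_eq_mul, mul_pow]
      ring

end Pool.Agent.Helper69.KPG
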